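import Mathlib
import Pool.Agent.H817R5.EP.Stubs

/-!
# Erdos problem 676 (MP_1626ca_nt): task PABS (sum of the absolute values over a full period)
-/

set_option autoImplicit false

open Finset Pool.Agent.H817R5.EP

namespace Pool.Agent.H609R5.EP

/-- local indicator -/
noncomputable def loc (a : ℕ → ℕ) (r q n : ℕ) : ℝ := if (n + r) % q ^ 2 < a q then 1 else 0

lemma ind_eq (a : ℕ → ℕ) (T : Finset ℕ) (r n : ℕ) :
    ind a T (n + r) = ∏ q ∈ T, loc a r q n := by
  classical
  unfold ind loc
  rw [Finset.prod_ite_zero]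
  simp

lemma loc_nonneg (a : ℕ → ℕ) (r q n : ℕ) : 0 ≤ loc a r q n := by
  unfold loc; split_ifs <;> norm_num

lemma loc_le (a : ℕ → ℕ) (r q n : ℕ) : loc a r q n ≤ 1 := by
  unfold loc; split_ifs <;> norm_num

lemma loc_mod (a : ℕ → ℕ) (r q n : ℕ) : loc a r q (n % q ^ 2) = loc a r q n := by
  unfold loc; rw [Nat.mod_add_mod]

lemma ind_nonneg (a : ℕ → ℕ) (T : Finset ℕ) (n : ℕ) : 0 ≤ ind a T n := by
  unfold ind; split_ifs <;> norm_num

lemma sum_loc (hper : St_PER) (a : ℕ → ℕ) (r q : ℕ) (hq : 1 ≤ q) (ha : a q ≤ q ^ 2) :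
    ∑ y ∈ range (q ^ 2), loc a r q y = a q := by
  have h := (hper (q ^ 2) 0 0 (fun n => loc a 0 q n) (by positivity)
    (fun n => loc_mod a 0 q n)).2.2 r
  have e : ∀ y, loc a 0 q (y + r) = loc a r q y := fun y => by unfold loc; rw [add_zero]
  simp only [e] at h
  rw [h]
  have e2 : ∀ y ∈ range (q ^ 2), loc a 0 q y = if y < a q then (1 : ℝ) else 0 := by
    intro y hy
    unfold loc
    rw [add_zero, Nat.mod_eq_of_lt (mem_range.mp hy)]
  rw [sum_congr rfl e2, ← sum_filter, sum_const, nsmul_eq_mul, mul_one]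
  have : (range (q ^ 2)).filter (fun y => y < a q) = range (a q) := by
    ext y
    simp only [mem_filter, mem_range]
    omega
  rw [this, card_range]

lemma prod_union_left {T T' : Finset ℕ} (f g : ℕ → ℝ) :
    ∏ q ∈ T ∪ T', (if q ∈ T then f q else 1) = ∏ q ∈ T, f q := by
  rw [Finset.prod_ite_mem, Finset.union_inter_cancel_left]

lemma prod_union_right {T T' : Finset ℕ} (f g : ℕ → ℝ) :
    ∏ q ∈ T ∪ T', (if q ∈ T' then f q else 1) = ∏ q ∈ T', f q := by
  rw [Finset.prod_ite_mem, Finset.union_inter_cancel_right]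

theorem pabs (hcrt : St_CRT) (hper : St_PER) : St_PABS := by
  classical
  intro a P T T' z r s hA hT hT'
  set U := T ∪ T' with hU
  have hUP : U ⊆ P := union_subset hT hT'
  have hpr : ∀ q ∈ U, q.Prime := fun q hq => (hA q (hUP hq)).1
  have hq1 : ∀ q ∈ U, 1 ≤ q := fun q hq => (hpr q hq).one_lt.le
  have ha1 : ∀ q ∈ U, 1 ≤ a q := fun q hq => (hA q (hUP hq)).2.2.1
  have haq : ∀ q ∈ U, a q ≤ q ^ 2 := by
    intro q hq
    have h1 := (hA q (hUP hq)).2.2.2
    have h2 := (hpr q hq).two_le
    nlinarith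
  have hmem : ∀ q ∈ U, q ∈ T ∨ q ∈ T' := fun q hq => mem_union.mp hq
  have hcT : 0 ≤ den a T := prod_nonneg fun q _ => by positivity
  have hcT' : 0 ≤ den a T' := prod_nonneg fun q _ => by positivity
  -- the common bound
  set W : ℝ := ∏ q ∈ U, ((if q ∈ T then (a q : ℝ) else 1) * (if q ∈ T' then (a q : ℝ) else 1))
    with hW
  have hWe : W = (∏ q ∈ T, (a q : ℝ)) * ∏ q ∈ T', (a q : ℝ) := by
    rw [hW, prod_mul_distrib, prod_union_left _ (fun _ => 1), prod_union_right _ (fun _ => 1)]
  -- sums
  have hsu : ∀ (S : Finset ℕ) (t : ℕ), S ⊆ U →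
      ∑ y ∈ range (∏ q ∈ U, q ^ 2), ind a S (y + t) =
        ∏ q ∈ U, (if q ∈ S then (a q : ℝ) else (q : ℝ) ^ 2) := by
    intro S t hS
    have h := hcrt U (fun q y => if q ∈ S then loc a t q y else 1) hpr (by
      intro q _ n
      simp only [loc_mod])
    have e : ∀ y, ind a S (y + t) = ∏ q ∈ U, (if q ∈ S then loc a t q y else 1) := by
      intro y
      rw [ind_eq, Finset.prod_ite_mem, Finset.inter_eq_right.mpr hS]
    rw [sum_congr rfl fun y _ => e y, h]
    apply prod_congr rfl
    intro q hq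
    by_cases hqS : q ∈ S
    · simp only [hqS, if_true]
      exact sum_loc hper a t q (hq1 q hq) (haq q hq)
    · simp [hqS]
  have hTU : T ⊆ U := subset_union_left
  have hTU' : T' ⊆ U := subset_union_right
  have hden : ∀ S : Finset ℕ, S ⊆ U →
      den a S = ∏ q ∈ U, (if q ∈ S then (a q : ℝ) / (q : ℝ) ^ 2 else 1) := by
    intro S hS
    rw [Finset.prod_ite_mem, Finset.inter_eq_right.mpr hS, den]
  have hqpos : ∀ q ∈ U, (1 : ℝ) ≤ (q : ℝ) ^ 2 := by
    intro q hq
    have : (1 : ℝ) ≤ q := by exact_mod_cast hq1 q hq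
    nlinarith
  have hapos : ∀ q ∈ U, (1 : ℝ) ≤ (a q : ℝ) := fun q hq => by exact_mod_cast ha1 q hq
  -- (1)
  have h1 : ∑ y ∈ range (∏ q ∈ U, q ^ 2), ind a T (y + r) * ind a T' (y + s) ≤ W := by
    have h := hcrt U (fun q y => (if q ∈ T then loc a r q y else 1) *
      (if q ∈ T' then loc a s q y else 1)) hpr (by
        intro q _ n
        simp only [loc_mod])
    have e : ∀ y, ind a T (y + r) * ind a T' (y + s) = ∏ q ∈ U,
        ((if q ∈ T then loc a r q y else 1) * (if q ∈ T' then loc a s q y else 1)) := by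
      intro y
      rw [prod_mul_distrib, ind_eq, ind_eq, Finset.prod_ite_mem, Finset.prod_ite_mem,
        Finset.inter_eq_right.mpr hTU, Finset.inter_eq_right.mpr hTU']
    rw [sum_congr rfl fun y _ => e y, h, hW]
    apply prod_le_prod
    · intro q _
      apply sum_nonneg
      intro y _
      apply mul_nonneg <;> split_ifs <;> first | exact loc_nonneg _ _ _ _ | norm_num
    · intro q hq
      have l1 := sum_loc hper a r q (hq1 q hq) (haq q hq)
      have l2 := sum_loc hper a s q (hq1 q hq) (haq q hq)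
      have ha := hapos q hq
      by_cases hqT : q ∈ T <;> by_cases hqT' : q ∈ T'
      · simp only [hqT, hqT', if_true]
        calc ∑ y ∈ range (q ^ 2), loc a r q y * loc a s q y
            ≤ ∑ y ∈ range (q ^ 2), loc a r q y := by
              apply sum_le_sum
              intro y _
              exact mul_le_of_le_one_right (loc_nonneg _ _ _ _) (loc_le _ _ _ _)
          _ = a q := l1
          _ ≤ a q * a q := by nlinarith
      · simp only [hqT, hqT', if_true, if_false, mul_one]
        exact l1.le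
      · simp only [hqT, hqT', if_true, if_false, one_mul]
        exact l2.le
      · exact absurd (hmem q hq) (by tauto)
  -- (2), (3)
  have h23 : ∀ (S S' : Finset ℕ) (t : ℕ), S ⊆ U → S' ⊆ U → (∀ q ∈ U, q ∈ S ∨ q ∈ S') →
      den a S' * ∑ y ∈ range (∏ q ∈ U, q ^ 2), ind a S (y + t) ≤
        ∏ q ∈ U, ((if q ∈ S then (a q : ℝ) else 1) * (if q ∈ S' then (a q : ℝ) else 1)) := by
    intro S S' t hS hS' hSS
    rw [hsu S t hS, hden S' hS', ← prod_mul_distrib]
    apply prod_le_prod
    · intro q _
      apply mul_nonneg <;> split_ifs <;> positivity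
    · intro q hq
      have ha := hapos q hq
      have hq2 := hqpos q hq
      by_cases hqT : q ∈ S <;> by_cases hqT' : q ∈ S'
      · simp only [hqT, hqT', if_true]
        have : (a q : ℝ) / (q : ℝ) ^ 2 ≤ a q := div_le_self (by linarith) hq2
        exact mul_le_mul_of_nonneg_right this (by linarith) |>.trans_eq (by ring)
      · simp [hqT, hqT']
      · simp only [hqT, hqT', if_true, if_false, one_mul]
        have hq0 : ((q : ℝ) ^ 2) ≠ 0 := by linarith
        rw [div_mul_cancel₀ _ hq0]
      · exact absurd (hSS q hq) (by tauto)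
  have h2 := h23 T T' r hTU hTU' hmem
  have h3 := h23 T' T s hTU' hTU (fun q hq => (hmem q hq).symm)
  have h3' : den a T * ∑ y ∈ range (∏ q ∈ U, q ^ 2), ind a T' (y + s) ≤ W := by
    refine h3.trans_eq ?_
    rw [hW]
    exact prod_congr rfl fun q _ => mul_comm _ _
  -- (4)
  have h4 : ((∏ q ∈ U, q ^ 2 : ℕ) : ℝ) * (den a T * den a T') ≤ W := by
    rw [hden T hTU, hden T' hTU', Nat.cast_prod, ← prod_mul_distrib, ← prod_mul_distrib, hW]
    apply prod_le_prod
    · intro q _
      apply mul_nonneg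
      · positivity
      · apply mul_nonneg <;> split_ifs <;> positivity
    · intro q hq
      have ha := hapos q hq
      have hq2 := hqpos q hq
      have hq0 : ((q : ℝ) ^ 2) ≠ 0 := by linarith
      push_cast
      by_cases hqT : q ∈ T <;> by_cases hqT' : q ∈ T'
      · simp only [hqT, hqT', if_true]
        have h5 : (a q : ℝ) / (q : ℝ) ^ 2 ≤ a q := div_le_self (by linarith) hq2
        have e : (q : ℝ) ^ 2 * ((a q : ℝ) / (q : ℝ) ^ 2 * ((a q : ℝ) / (q : ℝ) ^ 2)) =
            (a q : ℝ) * ((a q : ℝ) / (q : ℝ) ^ 2) := by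
          field_simp
        rw [e]
        exact mul_le_mul_of_nonneg_left h5 (by linarith)
      · simp only [hqT, hqT', if_true, if_false, mul_one]
        rw [mul_div_cancel₀ _ hq0]
      · simp only [hqT, hqT', if_true, if_false, one_mul]
        rw [mul_div_cancel₀ _ hq0]
      · exact absurd (hmem q hq) (by tauto)
  -- assembly
  have hb : ∀ y ∈ range (∏ q ∈ U, q ^ 2),
      |(ind a T (y + r) - den a T) * (ind a T' (y + s) - den a T')| ≤
        ind a T (y + r) * ind a T' (y + s) + den a T' * ind a T (y + r) +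
          den a T * ind a T' (y + s) + den a T * den a T' := by
    intro y _
    have u0 := ind_nonneg a T (y + r)
    have v0 := ind_nonneg a T' (y + s)
    rw [abs_mul]
    have k1 : |ind a T (y + r) - den a T| ≤ ind a T (y + r) + den a T := by
      rw [abs_le]; constructor <;> linarith
    have k2 : |ind a T' (y + s) - den a T'| ≤ ind a T' (y + s) + den a T' := by
      rw [abs_le]; constructor <;> linarith
    calc |ind a T (y + r) - den a T| * |ind a T' (y + s) - den a T'|
        ≤ (ind a T (y + r) + den a T) * (ind a T' (y + s) + den a T') :=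
          mul_le_mul k1 k2 (abs_nonneg _) (by linarith)
      _ = _ := by ring
  refine (sum_le_sum hb).trans ?_
  rw [sum_add_distrib, sum_add_distrib, sum_add_distrib, ← mul_sum, ← mul_sum, sum_const,
    card_range, nsmul_eq_mul, ← hWe]
  linarith

end Pool.Agent.H609R5.EP
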